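import Mathlib

set_option autoImplicit false

namespace Pool.Agent.Results.MP_1375b8_an.Bounded

/-- Solutions of the recursion. -/
def IsSol (μ : ℝ) (y : ℕ → ℝ) : Prop :=
  (∀ n, y (2 * n + 1) = y (2 * n) + μ * (1 - Real.exp (y n))) ∧
    ∀ n, 1 ≤ n → y (2 * n) = y (2 * n - 1) + μ * (1 - Real.exp (y n))

theorem result (μ : ℝ) (h0 : 0 < μ) (h1 : μ < 1) :
    ∃ y, IsSol μ y ∧ 0 < y 0 ∧ (∀ n, 1 ≤ n → y n = 0) ∧ ∃ C, ∀ n, |y n| ≤ C := by
  have hc : Continuous fun t : ℝ => t + μ * (1 - Real.exp t) := by fun_prop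
  have a1 : 0 ≤ -Real.log μ + μ * (1 - Real.exp (-Real.log μ)) := by
    rw [Real.exp_neg, Real.exp_log h0, mul_sub, mul_inv_cancel₀ h0.ne']
    linarith [Real.log_le_sub_one_of_pos h0]
  have a2 : 2 / μ + μ * (1 - Real.exp (2 / μ)) ≤ 0 := by
    have b1 := Real.quadratic_le_exp_of_nonneg (x := 2 / μ) (by positivity)
    have b2 : μ * ((2 / μ) ^ 2 / 2) = 2 / μ := by field_simp
    have b3 : 0 ≤ μ * (2 / μ) := by positivity
    nlinarith
  have a3 : 0 < -Real.log μ := neg_pos.2 (Real.log_neg h0 h1)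
  have a4 : -Real.log μ ≤ 2 / μ := by
    have := Real.log_le_sub_one_of_pos (inv_pos.2 h0)
    rw [Real.log_inv] at this
    have : μ⁻¹ ≤ 2 / μ := by rw [inv_eq_one_div]; gcongr; norm_num
    linarith
  obtain ⟨t, ht, e⟩ := intermediate_value_Icc' a4 hc.continuousOn ⟨a2, a1⟩
  have t0 : 0 < t := a3.trans_le ht.1
  refine ⟨fun n => if n = 0 then t else 0, ⟨fun n => ?_, fun n hn => ?_⟩, by simpa using t0,
    fun n hn => if_neg (by omega), t, fun n => ?_⟩
  · rcases Nat.eq_zero_or_pos n with rfl | hn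
    · simpa using e.symm
    · simp [hn.ne']
  · have : 2 * n - 1 ≠ 0 := by omega
    have h2 : n ≠ 0 := by omega
    simp [this, h2]
  · simp only
    split_ifs
    · exact (abs_of_pos t0).le
    · simpa using t0.le

end Pool.Agent.Results.MP_1375b8_an.Bounded
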